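import Pool.Agent.Results.MP_96f494_lc.AlmostAllUndecidable
import Pool.Agent.Y669.TA.Real
set_option autoImplicit false

/-! The theories of the fixed rings `ℤ^tr(σ)` are not arithmetical, uniformly in `σ`. Stronger form
of `AlmostAllUndecidable`. -/

namespace Pool.Agent.Results.MP_96f494_lc.UniformlyNotArithmetical

open FirstOrder FirstOrder.Language IntermediateField MeasureTheory NumberField
open Pool.Agent.Helper967.TR Pool.Agent.Y669.TA
open Pool.Agent.Results.MP_96f494_lc.AlmostAllUndecidable (trueIn_congr fixedFld fixedRingEquiv)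

/-- The group `Gal(ℚ^tr/ℚ)`. -/
abbrev Gtr : Type := Gal(Qtr/ℚ)

/-- The formula `ζ` (with one free variable and without parameters) defines `ℤ` in the ring `R`. -/
def DefinesInt (R : Type) [CommRing R] (ζ : Language.ring.Formula (Fin 1)) : Prop :=
  letI := (FirstOrder.Ring.compatibleRingOfRing R).toStructure
  ∀ x : R, ζ.Realize (fun _ => x) ↔ ∃ m : ℤ, x = m

/-- The first-order theory of the ring `ℤ^tr(σ)`: the set of the Goedel numbers of the sentences
that are true in it. -/
def Theory (σ : Gtr) (n : ℕ) : Prop :=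
  ∃ φ : Language.ring.Sentence, code φ = n ∧ TrueIn (fixedRing σ) φ

/-- One computable function reduces `A` to the theories of all the rings `ℤ^tr(σ)`. -/
def UniformlyReducible (A : ℕ → Prop) : Prop :=
  ∃ f : ℕ → ℕ, Computable f ∧ ∀ (σ : Gtr) (n : ℕ), A n ↔ Theory σ (f n)

/-- The set of (the Goedel numbers of) the sentences that are true in almost all the rings
`ℤ^tr(σ)`, for the normalised Haar measure, is not arithmetical. -/
def AlmostAllNotArithmetical : Prop :=
  ∀ [MeasurableSpace Gtr] [BorelSpace Gtr] (μ : Measure Gtr)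
    [μ.IsHaarMeasure] [IsProbabilityMeasure μ], ¬ Arithmetical (fun n => ∀ᵐ σ ∂μ, Theory σ n)

/-- (1) One first-order formula without parameters defines `ℤ` in the rings `ℤ^tr(σ)`, for all
`σ ∈ Gal(ℚ^tr/ℚ)`.
(2) Every arithmetical set is many-one reducible to the theories of all rings `ℤ^tr(σ)`, by one
computable function.
(3) For no `σ` is the theory of `ℤ^tr(σ)` arithmetical; in particular none is decidable.
(4) For the normalised Haar measure, the set of the sentences that are true in almost all rings
`ℤ^tr(σ)` is not arithmetical.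
(5) The same holds for the sentences that are true in `ℤ^tr(σ)` for all `σ` in any given nonempty
set. -/
theorem result :
    (∃ ζ : Language.ring.Formula (Fin 1), ∀ σ : Gtr, DefinesInt (fixedRing σ) ζ) ∧
    (∀ A : ℕ → Prop, Arithmetical A → UniformlyReducible A) ∧
    (∀ σ : Gtr, ¬ Arithmetical (Theory σ) ∧ ¬ DecidableTheory (fixedRing σ)) ∧
    AlmostAllNotArithmetical ∧
    (∀ S : Set Gtr, S.Nonempty → ¬ Arithmetical (fun n => ∀ σ ∈ S, Theory σ n)) := by
  have key : ∀ A : ℕ → Prop, Arithmetical A → UniformlyReducible A := by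
    intro A hA
    obtain ⟨ψ, hψ, h⟩ := Real.reducible hA
    refine ⟨fun n => code (ψ n), hψ, fun σ n => ?_⟩
    constructor
    · intro hn
      exact ⟨ψ n, rfl, (trueIn_congr (fixedRingEquiv σ) _).2 ((h _ n).2 hn)⟩
    · rintro ⟨χ, hχ, hh⟩
      rw [code_injective _ _ hχ] at hh
      exact (h _ n).1 ((trueIn_congr (fixedRingEquiv σ) _).1 hh)
  have h3 : ∀ σ : Gtr, ¬ Arithmetical (Theory σ) := fun σ =>
    not_arithmetical fun A hA => by
      obtain ⟨f, hf, h⟩ := key A hA
      exact ⟨f, hf, h σ⟩
  refine ⟨?_, key, fun σ => ⟨h3 σ, fun hd => h3 σ (.comp _ hd)⟩, ?_, ?_⟩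
  · obtain ⟨ζ, hζ⟩ := Real.int_def
    refine ⟨ζ, fun σ x => ?_⟩
    let e := fixedRingEquiv σ
    have h1 : (letI := (FirstOrder.Ring.compatibleRingOfRing (fixedRing σ)).toStructure;
        ζ.Realize (fun _ => x)) ↔
        (letI := (FirstOrder.Ring.compatibleRingOfRing (𝓞 (fixedFld σ))).toStructure;
        ζ.Realize (fun _ => e x)) := by
      let _ := FirstOrder.Ring.compatibleRingOfRing (fixedRing σ)
      let _ := FirstOrder.Ring.compatibleRingOfRing (𝓞 (fixedFld σ))
      exact (StrongHomClass.realize_formula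
        (FirstOrder.Ring.languageEquivEquivRingEquiv.symm e) ζ).symm
    refine h1.trans ((hζ _ _).trans ?_)
    constructor
    · rintro ⟨m, hm⟩
      exact ⟨m, e.injective (by rw [hm, map_intCast])⟩
    · rintro ⟨m, hm⟩
      exact ⟨m, by rw [hm, map_intCast]⟩
  · intro _ _ μ _ _
    refine not_arithmetical fun A hA => ?_
    obtain ⟨f, hf, h⟩ := key A hA
    refine ⟨f, hf, fun n => ?_⟩
    simp only [← h, Filter.eventually_const]
  · rintro S ⟨τ, hτ⟩
    refine not_arithmetical fun A hA => ?_
    obtain ⟨f, hf, h⟩ := key A hA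
    refine ⟨f, hf, fun n => ?_⟩
    constructor
    · intro hn σ _
      exact (h σ n).1 hn
    · intro hn
      exact (h τ n).2 (hn τ hτ)

end Pool.Agent.Results.MP_96f494_lc.UniformlyNotArithmetical
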